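import Pool.Agent.W646.PN.Stm

set_option autoImplicit false

/-! PN-DEN: density of dyadic elements of the unit ball -/

namespace Pool.Agent.W637.PN

open Pool.Agent.Helper184.Gur Pool.Agent.W646.PN

theorem interp {X : Type} [NormedAddCommGroup X] [NormedSpace ℝ X] {co : ℕ → X →L[ℝ] ℝ}
    {z : ℕ → X} (G : IsG co z) (c : ℕ → ℝ) :
    ∀ n : ℕ, ∃ w : X, Rec co n w ∧ ∀ i < n, co i w = c i := by
  intro n
  induction n with
  | zero => exact ⟨0, Rec.zero, fun i hi => absurd hi (Nat.not_lt_zero i)⟩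
  | succ n ih =>
    obtain ⟨w, hw, hc⟩ := ih
    refine ⟨w + (c n - co n w) • z n, (hw.mono (Nat.le_succ n)).add ((G.z_rec n).smul _),
      fun i hi => ?_⟩
    rcases Nat.lt_succ_iff_lt_or_eq.1 hi with hi' | rfl
    · simp only [map_add, map_smul, smul_eq_mul, G.z_lt n i hi', mul_zero, add_zero]
      exact hc i hi'
    · simp only [map_add, map_smul, smul_eq_mul, G.z_self, mul_one]
      ring

theorem dy_avg {x y : ℝ} (hx : Dy x) (hy : Dy y) : Dy ((x + y) / 2) := by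
  obtain ⟨s, j, rfl⟩ := hx
  obtain ⟨s', j', rfl⟩ := hy
  refine ⟨s + s' + 1, j * 2 ^ s' + j' * 2 ^ s, ?_⟩
  push_cast
  rw [pow_succ, pow_add]
  field_simp

theorem dy_near (u : ℝ) (h1 : -1 ≤ u) (h2 : u ≤ 1) (δ : ℝ) (hδ : 0 < δ) :
    ∃ c : ℝ, Dy c ∧ |c| ≤ 1 ∧ |c - u| ≤ δ := by
  obtain ⟨s, hs⟩ := exists_pow_lt_of_lt_one hδ (show (1 / 2 : ℝ) < 1 by norm_num)
  have hp : (0 : ℝ) < 2 ^ s := by positivity
  have hs' : 1 / (2 : ℝ) ^ s ≤ δ := by
    rw [one_div, ← inv_pow]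
    have : (2 : ℝ)⁻¹ = 1 / 2 := by norm_num
    rw [this]
    exact hs.le
  refine ⟨(⌊u * 2 ^ s⌋ : ℝ) / 2 ^ s, ⟨s, ⌊u * 2 ^ s⌋, rfl⟩, ?_, ?_⟩
  · rw [abs_le]
    constructor
    · rw [le_div_iff₀ hp]
      have h3 : (-(2 ^ s) : ℤ) ≤ ⌊u * 2 ^ s⌋ := by
        rw [Int.le_floor]
        push_cast
        nlinarith
      have h4 : ((-(2 ^ s) : ℤ) : ℝ) ≤ (⌊u * 2 ^ s⌋ : ℝ) := by exact_mod_cast h3
      push_cast at h4
      linarith
    · rw [div_le_iff₀ hp]
      have := Int.floor_le (u * 2 ^ s)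
      nlinarith
  · rw [abs_le]
    have h3 := Int.floor_le (u * 2 ^ s)
    have h4 := Int.lt_floor_add_one (u * 2 ^ s)
    constructor
    · have h5 : u - 1 / 2 ^ s ≤ (⌊u * 2 ^ s⌋ : ℝ) / 2 ^ s := by
        rw [le_div_iff₀ hp, sub_mul, one_div, inv_mul_cancel₀ hp.ne']
        linarith
      linarith
    · have h5 : (⌊u * 2 ^ s⌋ : ℝ) / 2 ^ s ≤ u := by
        rw [div_le_iff₀ hp]; exact h3
      linarith

theorem den : S_DEN := by
  intro X _ _ co z G x δ hx hδ
  obtain ⟨w0, n0, hw0, hxw⟩ := G.dense x (δ / 4) (by positivity)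
  set n := max n0 1 with hn
  have hw0' : Rec co n w0 := hw0.mono (le_max_left _ _)
  have hnorm : ‖w0‖ ≤ 1 + δ / 4 := by
    have : w0 = x - (x - w0) := by abel
    calc ‖w0‖ = ‖x - (x - w0)‖ := by rw [← this]
      _ ≤ ‖x‖ + ‖x - w0‖ := norm_sub_le _ _
      _ ≤ 1 + δ / 4 := add_le_add hx hxw
  have hu : ∀ i, ∃ c : ℝ, Dy c ∧ |c| ≤ 1 ∧ |co i w0 - c| ≤ δ / 2 := by
    intro i
    have h1 := (G.le_norm w0 i).trans hnorm
    obtain ⟨c, hc1, hc2, hc3⟩ := dy_near (max (-1) (min 1 (co i w0))) (le_max_left _ _)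
      (max_le (by norm_num) (min_le_left _ _)) (δ / 4) (by positivity)
    refine ⟨c, hc1, hc2, ?_⟩
    have h2 : |max (-1) (min 1 (co i w0)) - co i w0| ≤ δ / 4 := by
      rw [abs_le] at h1 ⊢
      rcases le_total (co i w0) 1 with h3 | h3
      · rw [min_eq_right h3]
        rcases le_total (-1) (co i w0) with h4 | h4
        · rw [max_eq_right h4]; constructor <;> linarith
        · rw [max_eq_left h4]; constructor <;> linarith
      · rw [min_eq_left h3, max_eq_right (by norm_num)]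
        constructor <;> linarith
    rw [abs_le] at h2 hc3 ⊢
    constructor <;> linarith
  choose c hcD hc1 hcu using hu
  obtain ⟨w, hw, hwc⟩ := interp G c n
  refine ⟨w, n, hw, ?_, ?_, ?_⟩
  · intro i
    induction i using Nat.strong_induction_on with
    | _ i ih =>
      rcases lt_or_ge i n with hi | hi
      · rw [hwc i hi]; exact hcD i
      · rw [hw i hi]
        have hi1 : 1 ≤ i := (le_max_right _ _).trans hi
        exact dy_avg (ih _ (a_lt hi1)) (ih _ (b_lt hi1))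
  · apply G.norm_le w 1 zero_le_one
    apply abs_le_of_rec (le_max_right n0 1) hw
    intro i hi
    rw [hwc i hi]; exact hc1 i
  · have h1 : ‖w0 - w‖ ≤ δ / 2 := by
      apply G.norm_le _ _ (by positivity)
      have hr : Rec co n (w0 - w) := by
        rw [sub_eq_add_neg]
        exact hw0'.add hw.neg
      apply abs_le_of_rec (le_max_right n0 1) hr
      intro i hi
      rw [map_sub, hwc i hi]
      exact hcu i
    calc ‖x - w‖ = ‖(x - w0) + (w0 - w)‖ := by congr 1; abel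
      _ ≤ ‖x - w0‖ + ‖w0 - w‖ := norm_add_le _ _
      _ ≤ δ := by linarith

end Pool.Agent.W637.PN
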